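import Mathlib

set_option autoImplicit false

namespace Pool.Agent.Results.MP_a2bf4b_an.Example

noncomputable def F (x y : ℝ) : ℝ := ⌊x⌋ + ⌊y⌋ + (Int.fract x + Int.fract y) / 2

lemma floor_F (x y : ℝ) : ⌊F x y⌋ = ⌊x⌋ + ⌊y⌋ := by
  have h1 := Int.fract_nonneg x
  have h2 := Int.fract_nonneg y
  have h3 := Int.fract_lt_one x
  have h4 := Int.fract_lt_one y
  rw [Int.floor_eq_iff, F]
  push_cast
  constructor <;> linarith

lemma fract_F (x y : ℝ) : Int.fract (F x y) = (Int.fract x + Int.fract y) / 2 := by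
  rw [Int.fract, floor_F, F]
  push_cast
  ring

lemma mono (y : ℝ) : StrictMono (fun x => F x y) := by
  intro x x' h
  have h1 := Int.floor_le_floor h.le
  have e1 := Int.floor_add_fract x
  have e2 := Int.floor_add_fract x'
  have h2 : (⌊x⌋ : ℝ) ≤ ⌊x'⌋ := by exact_mod_cast h1
  simp only [F]
  linarith

lemma symm (x y : ℝ) : F x y = F y x := by
  unfold F
  ring

theorem result : ∃ (I J : Set ℝ) (F : ℝ → ℝ → ℝ),
    I.OrdConnected ∧ J.OrdConnected ∧ J.Nontrivial ∧ J ⊂ I ∧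
    (∀ x ∈ I, ∀ y ∈ I, F x y ∈ I) ∧
    (∀ x ∈ I, ∀ y ∈ I, ∀ u ∈ I, ∀ v ∈ I, F (F x y) (F u v) = F (F x u) (F y v)) ∧
    (∀ x ∈ I, ∀ y ∈ I, F x y = F y x) ∧
    (∀ y ∈ I, StrictMonoOn (fun x => F x y) I) ∧ (∀ x ∈ I, StrictMonoOn (F x) I) ∧
    (∀ x ∈ J, F x x = x) ∧ ∃ x₀ ∈ I, F x₀ x₀ ≠ x₀ := by
  refine ⟨Set.Ici 0, Set.Ico 0 1, F, Set.ordConnected_Ici, Set.ordConnected_Ico,
    ⟨0, by simp, 1 / 2, by norm_num, by norm_num⟩, ⟨fun x hx => hx.1, fun h => ?_⟩, ?_, ?_,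
    fun x _ y _ => symm x y, fun y _ => (mono y).strictMonoOn _, fun x _ => ?_, ?_, 1, by simp, ?_⟩
  · have := h (show (1 : ℝ) ∈ Set.Ici 0 by simp)
    simp at this
  · intro x hx y hy
    have h1 : (0 : ℝ) ≤ ⌊x⌋ := by exact_mod_cast Int.floor_nonneg.mpr hx
    have h2 : (0 : ℝ) ≤ ⌊y⌋ := by exact_mod_cast Int.floor_nonneg.mpr hy
    have h3 := Int.fract_nonneg x
    have h4 := Int.fract_nonneg y
    simp only [Set.mem_Ici, F]
    linarith
  · intro x _ y _ u _ v _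
    rw [F, F.eq_1 (F x u), floor_F, floor_F, floor_F, floor_F, fract_F, fract_F, fract_F, fract_F]
    push_cast
    ring
  · intro a _ b _ h
    rw [symm x a, symm x b]
    exact mono x h
  · intro x hx
    rw [F, Int.floor_eq_zero_iff.mpr hx, Int.fract_eq_self.mpr hx]
    simp
  · simp [F]

end Pool.Agent.Results.MP_a2bf4b_an.Example
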